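import Mathlib

/-!
# Base 4 automaton for linear forms taking powers of 4

The functions are written so that the kernel can evaluate them.
-/

set_option autoImplicit false

namespace Pool.Agent.Q252.P4

/-- An alternative: `pend x y z r` stands for `x a + y b + z c + r` is a power of 4, and
`done x y z` for `x a + y b + z c = 0`, where `(a, b, c)` are the remaining parts. -/
inductive Alt where
  | pend (x y z r : ℕ)
  | done (x y z : ℕ)

def Alt.beq : Alt → Alt → Bool
  | .pend x y z r, .pend x' y' z' r' =>
    Nat.beq x x' && (Nat.beq y y' && (Nat.beq z z' && Nat.beq r r'))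
  | .done x y z, .done x' y' z' => Nat.beq x x' && (Nat.beq y y' && Nat.beq z z')
  | _, _ => false

def listBeq : List Alt → List Alt → Bool
  | [], [] => true
  | a :: l, b :: m => match Alt.beq a b with
    | true => listBeq l m
    | false => false
  | _, _ => false

def llBeq : List (List Alt) → List (List Alt) → Bool
  | [], [] => true
  | a :: l, b :: m => match listBeq a b with
    | true => llBeq l m
    | false => false
  | _, _ => false

/-- evaluate a number -/
def forceN {α : Type} (n : ℕ) (f : ℕ → α) : α :=
  match n with
  | 0 => f (nat_lit 0)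
  | Nat.succ m => f (Nat.succ m)

/-- evaluate a boolean -/
def forceB {α : Type} (n : Bool) (f : Bool → α) : α :=
  match n with
  | true => f true
  | false => f false

/-- one digit for one alternative -/
def stepA (da db dc : ℕ) (t : Alt) : Option Alt :=
  match t with
  | .pend x y z r =>
    forceN (Nat.add (Nat.add (Nat.add (Nat.mul x da) (Nat.mul y db)) (Nat.mul z dc)) r) fun v =>
      match Nat.beq (Nat.mod v (nat_lit 4)) (nat_lit 0) with
      | true => forceN (Nat.div v (nat_lit 4)) fun r' => some (.pend x y z r')
      | false => match Nat.beq v (nat_lit 1) with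
        | true => some (.done x y z)
        | false => none
  | .done x y z =>
    match Nat.beq (Nat.add (Nat.add (Nat.mul x da) (Nat.mul y db)) (Nat.mul z dc)) (nat_lit 0) with
    | true => some (.done x y z)
    | false => none

def stepL (da db dc : ℕ) : List Alt → List Alt
  | [] => []
  | a :: l => match stepA da db dc a with
    | some a' => a' :: stepL da db dc l
    | none => stepL da db dc l

/-- one digit for all lists; `none` if one of them becomes empty -/
def stepS (da db dc : ℕ) : List (List Alt) → Option (List (List Alt))
  | [] => some []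
  | l :: s => match stepL da db dc l with
    | [] => none
    | a :: l' => match stepS da db dc s with
      | some s' => some ((a :: l') :: s')
      | none => none

/-- powers of 4, with fuel -/
def isPf : ℕ → ℕ → Bool
  | 0, _ => false
  | f + 1, v => match Nat.beq v (nat_lit 1) with
    | true => true
    | false => match Nat.beq (Nat.mod v (nat_lit 4)) (nat_lit 0) with
      | false => false
      | true => match Nat.beq v (nat_lit 0) with
        | true => false
        | false => forceN (Nat.div v (nat_lit 4)) fun v' => isPf f v'

def isP (v : ℕ) : Bool := forceN v fun v => isPf v v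

def accA : Alt → Bool
  | .pend _ _ _ r => isP r
  | .done _ _ _ => true

def accL : List Alt → Bool
  | [] => false
  | a :: l => match accA a with
    | true => true
    | false => accL l

def accS : List (List Alt) → Bool
  | [] => true
  | l :: s => match accL l with
    | true => accS s
    | false => false

/-- states: flags for nonzero coordinates, lists of alternatives -/
structure St where
  fa : Bool
  fb : Bool
  fc : Bool
  ls : List (List Alt)

def beqB : Bool → Bool → Bool
  | true, b => b
  | false, b => !b

def St.beq (s t : St) : Bool :=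
  match beqB s.fa t.fa && (beqB s.fb t.fb && beqB s.fc t.fc) with
  | true => llBeq s.ls t.ls
  | false => false

def mem (s : St) : List St → Bool
  | [] => false
  | t :: p => match St.beq s t with
    | true => true
    | false => mem s p

def all4 (f : ℕ → Bool) : Bool :=
  match f (nat_lit 0) with
  | false => false
  | true => match f (nat_lit 1) with
    | false => false
    | true => match f (nat_lit 2) with
      | false => false
      | true => f (nat_lit 3)

def nz (d : ℕ) : Bool := !(Nat.beq d 0)

def isZ (a b c : ℕ) : Bool := Nat.beq a 0 && (Nat.beq b 0 && Nat.beq c 0)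

def acc (s : St) : Bool :=
  match s.fa && (s.fb && s.fc) with
  | true => accS s.ls
  | false => false

/-- no completion by a nonzero triple -/
def nc : ℕ → List St → St → Bool
  | 0, _, _ => false
  | fuel + 1, path, s => all4 fun a => all4 fun b => all4 fun c =>
    match stepS a b c s.ls with
    | none => true
    | some ls =>
      forceB (s.fa || nz a) fun fa => forceB (s.fb || nz b) fun fb => forceB (s.fc || nz c) fun fc =>
        match !(isZ a b c) && acc ⟨fa, fb, fc, ls⟩ with
        | true => false
        | false => match mem ⟨fa, fb, fc, ls⟩ path with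
          | true => true
          | false => nc fuel (⟨fa, fb, fc, ls⟩ :: path) ⟨fa, fb, fc, ls⟩

/-- evaluate an alternative -/
def forceA {α : Type} (t : Alt) (f : Alt → α) : α :=
  match t with
  | .pend x y z r => forceN x fun x => forceN y fun y => forceN z fun z => forceN r fun r =>
      f (.pend x y z r)
  | .done x y z => forceN x fun x => forceN y fun y => forceN z fun z => f (.done x y z)

def forceL {α : Type} : List Alt → (List Alt → α) → α
  | [], k => k []
  | a :: l, k => forceA a fun a' => forceL l fun l' => k (a' :: l')

def forceS {α : Type} : List (List Alt) → (List (List Alt) → α) → α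
  | [], k => k []
  | a :: l, k => forceL a fun a' => forceS l fun l' => k (a' :: l')

/-- all numbers up to `n` -/
def allTo (f : ℕ → Bool) : ℕ → Bool
  | 0 => f (nat_lit 0)
  | n + 1 => match forceN (Nat.succ n) f with
    | true => allTo f n
    | false => false

/-- is `r` the square of a number at most `w` -/
def isSqTo (r : ℕ) : ℕ → Bool
  | 0 => Nat.beq r (nat_lit 0)
  | w + 1 => match Nat.beq (Nat.mul (Nat.succ w) (Nat.succ w)) r with
    | true => true
    | false => isSqTo r w

/-- `n ^ 2 - x ^ 2 - y ^ 2 - z ^ 2` is a square -/
def rep (n x y z : ℕ) : Bool :=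
  forceN (Nat.add (Nat.add (Nat.mul x x) (Nat.mul y y)) (Nat.mul z z)) fun q =>
    match Nat.ble q (Nat.mul n n) with
    | true => forceN (Nat.sub (Nat.mul n n) q) fun r => isSqTo r n
    | false => false

/-- the alternative for the coefficients `x, y, z`, low parts `A, B, C`, modulus `M` -/
def alt (n A B C M x y z : ℕ) : Option Alt :=
  forceN (Nat.add (Nat.add (Nat.mul A x) (Nat.mul B y)) (Nat.mul C z)) fun v =>
    match Nat.beq (Nat.mod v M) 0 && nz (Nat.add (Nat.add x y) z) with
    | true => match rep n x y z with
      | true => some (.pend x y z (Nat.div v M))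
      | false => none
    | false => match isP v with
      | true => match rep n x y z with
        | true => some (.done x y z)
        | false => none
      | false => none

def mk3 (n A B C M x y : ℕ) : ℕ → List Alt → List Alt
  | 0, l => match alt n A B C M x y (nat_lit 0) with
    | some t => t :: l
    | none => l
  | z + 1, l => match forceN (Nat.succ z) fun z' => alt n A B C M x y z' with
    | some t => mk3 n A B C M x y z (t :: l)
    | none => mk3 n A B C M x y z l

def mk2 (n A B C M x : ℕ) : ℕ → List Alt → List Alt
  | 0, l => mk3 n A B C M x (nat_lit 0) n l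
  | y + 1, l => mk2 n A B C M x y (mk3 n A B C M x (Nat.succ y) n l)

def mk1 (n A B C M : ℕ) : ℕ → List Alt → List Alt
  | 0, l => mk2 n A B C M (nat_lit 0) n l
  | x + 1, l => mk1 n A B C M x (mk2 n A B C M (Nat.succ x) n l)

/-- the alternatives for `n` after the low parts `A, B, C` modulo `M` -/
def mk (n A B C M : ℕ) : List Alt := mk1 n A B C M n []

/-- no representation of `n ^ 2` makes `A x + B y + C z` a power of 4 -/
def dead (n A B C : ℕ) : Bool :=
  allTo (fun x => allTo (fun y => allTo (fun z =>
    match isP (Nat.add (Nat.add (Nat.mul A x) (Nat.mul B y)) (Nat.mul C z)) with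
    | false => true
    | true => !(rep n x y z)) n) n) n

/-- the `n` used for an explicit triple -/
def killers : List ((ℕ × ℕ × ℕ) × List ℕ) :=
  [((1, 2, 2), [18]), ((1, 2, 26), [15]), ((1, 2, 28), [13]), ((1, 2, 4), [11]),
    ((1, 2, 5), [23]), ((1, 32, 62), [11]), ((1, 8, 1), [11]), ((1, 8, 14), [11]),
    ((4, 2, 1), [11]), ((4, 2, 12), [11]), ((4, 2, 27), [9]), ((4, 2, 28), [9]),
    ((4, 2, 3), [11]), ((4, 2, 30), [11]), ((4, 2, 31), [11]), ((4, 2, 4), [9]),
    ((4, 2, 52), [9]), ((4, 2, 56), [26]), ((4, 2, 6), [29]), ((4, 2, 60), [11]),
    ((4, 2, 7), [25]), ((4, 2, 8), [22]), ((4, 32, 30), [11]), ((4, 8, 14), [13]),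
    ((4, 8, 2), [22]), ((4, 8, 6), [19])]

/-- the additional lists at depth 3 -/
def hints : List ((ℕ × ℕ × ℕ) × List ℕ) :=
  [((1, 2, 58), [15]), ((1, 2, 60), [15]), ((1, 0, 62), [11]), ((4, 2, 60), [11, 9]),
    ((4, 2, 56), [26]), ((4, 2, 52), [9]), ((4, 2, 63), [11]), ((4, 2, 62), [11]),
    ((4, 2, 59), [9]), ((4, 0, 62), [11])]

def lookup (A B C : ℕ) : List ((ℕ × ℕ × ℕ) × List ℕ) → List ℕ
  | [] => []
  | e :: l => match Nat.beq e.1.1 A && (Nat.beq e.1.2.1 B && Nat.beq e.1.2.2 C) with
    | true => e.2
    | false => lookup A B C l

def addHints (A B C M : ℕ) : List ℕ → List (List Alt)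
  | [] => []
  | n :: l => mk n A B C M :: addHints A B C M l

def hasNil : List (List Alt) → Bool
  | [] => false
  | [] :: _ => true
  | _ :: s => hasNil s

def extras (A B C M : ℕ) : List (List Alt) :=
  match Nat.beq M 64 with
  | true => addHints A B C M (lookup A B C hints)
  | false => []

/-- explicit acceptance is impossible -/
def deadAny (A B C : ℕ) : Bool := (lookup A B C killers).any fun n => dead n A B C

/-- one digit at an explicit node -/
def body (next : ℕ → ℕ → ℕ → ℕ → St → Bool) (root : Bool) (A B C M : ℕ) (s : St)
    (a b c : ℕ) : Bool :=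
  match root && isZ a b c with
  | true => true
  | false =>
    match stepS a b c s.ls with
    | none => true
    | some ls =>
      forceN (Nat.add A (Nat.mul M a)) fun A' => forceN (Nat.add B (Nat.mul M b)) fun B' =>
      forceN (Nat.add C (Nat.mul M c)) fun C' => forceN (Nat.mul M 4) fun M' =>
      forceB (s.fa || nz a) fun fa => forceB (s.fb || nz b) fun fb => forceB (s.fc || nz c) fun fc =>
      match !(isZ a b c) && (acc ⟨fa, fb, fc, ls⟩ &&
          !(Nat.beq A' 1 && (Nat.beq B' 2 && Nat.beq C' 3))) && !(deadAny A' B' C') with
      | true => false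
      | false =>
        forceS (extras A' B' C' M') fun extra =>
        match hasNil extra with
        | true => true
        | false =>
          match nc 12 [⟨fa, fb, fc, ls ++ extra⟩] ⟨fa, fb, fc, ls ++ extra⟩ with
          | true => true
          | false => next A' B' C' M' ⟨fa, fb, fc, ls ++ extra⟩

/-- explicit nodes -/
def ex : ℕ → ℕ → ℕ → ℕ → ℕ → St → Bool
  | 0, _, _, _, _, _ => false
  | fuel + 1, A, B, C, M, s => all4 fun a => all4 fun b => all4 fun c =>
      body (ex fuel) false A B C M s a b c

/-- the start, `l` being the form for `n = 2`, with the first digits `a, b, c` -/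
def start (l : Alt) (a b c : ℕ) : Bool :=
  forceS [[.pend 1 0 0 0], [l], mk 3 0 0 0 1, mk 6 0 0 0 1, mk 7 0 0 0 1] fun ls =>
    body (ex 4) true 0 0 0 1 ⟨false, false, false, ls⟩ a b c

end Pool.Agent.Q252.P4
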