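import Pool.Agent.Q252.P4.Sound

/-!
# Soundness of the explicit part
-/

set_option autoImplicit false

namespace Pool.Agent.Q252.P4

lemma mk3_sub (n A B C M x y z : ℕ) (l : List Alt) {t : Alt} (ht : t ∈ l) :
    t ∈ mk3 n A B C M x y z l := by
  induction z generalizing l with
  | zero =>
    simp only [mk3]
    cases alt n A B C M x y 0 with
    | none => exact ht
    | some u => exact List.mem_cons_of_mem _ ht
  | succ z ih =>
    simp only [mk3, forceN_eq]
    cases alt n A B C M x y (Nat.succ z) with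
    | none => exact ih l ht
    | some u => exact ih _ (List.mem_cons_of_mem _ ht)

lemma mk3_mem (n A B C M x y z z0 : ℕ) (l : List Alt) {t : Alt} (hz : z0 ≤ z)
    (ht : alt n A B C M x y z0 = some t) : t ∈ mk3 n A B C M x y z l := by
  induction z generalizing l with
  | zero =>
    have : z0 = 0 := by omega
    subst this
    simp only [mk3]
    rw [ht]
    exact List.mem_cons_self
  | succ z ih =>
    simp only [mk3, forceN_eq]
    by_cases h : z0 = z + 1
    · subst h
      have ht' : alt n A B C M x y (Nat.succ z) = some t := ht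
      rw [ht']
      exact mk3_sub _ _ _ _ _ _ _ _ _ List.mem_cons_self
    · cases alt n A B C M x y (Nat.succ z) with
      | none => exact ih l (by omega)
      | some u => exact ih _ (by omega)

lemma mk2_sub (n A B C M x y : ℕ) (l : List Alt) {t : Alt} (ht : t ∈ l) :
    t ∈ mk2 n A B C M x y l := by
  induction y generalizing l with
  | zero => exact mk3_sub _ _ _ _ _ _ _ _ _ ht
  | succ y ih => exact ih _ (mk3_sub _ _ _ _ _ _ _ _ _ ht)

lemma mk2_mem (n A B C M x y y0 z0 : ℕ) (l : List Alt) {t : Alt} (hy : y0 ≤ y) (hz : z0 ≤ n)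
    (ht : alt n A B C M x y0 z0 = some t) : t ∈ mk2 n A B C M x y l := by
  induction y generalizing l with
  | zero =>
    have : y0 = 0 := by omega
    subst this
    exact mk3_mem _ _ _ _ _ _ _ _ _ _ hz ht
  | succ y ih =>
    by_cases h : y0 = y + 1
    · subst h
      show t ∈ mk2 n A B C M x y (mk3 n A B C M x (Nat.succ y) n l)
      exact mk2_sub _ _ _ _ _ _ _ _ (mk3_mem _ _ _ _ _ _ _ _ _ _ hz ht)
    · exact ih _ (by omega)

lemma mk1_sub (n A B C M x : ℕ) (l : List Alt) {t : Alt} (ht : t ∈ l) :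
    t ∈ mk1 n A B C M x l := by
  induction x generalizing l with
  | zero => exact mk2_sub _ _ _ _ _ _ _ _ ht
  | succ x ih => exact ih _ (mk2_sub _ _ _ _ _ _ _ _ ht)

lemma mk1_mem (n A B C M x x0 y0 z0 : ℕ) (l : List Alt) {t : Alt} (hx : x0 ≤ x) (hy : y0 ≤ n)
    (hz : z0 ≤ n) (ht : alt n A B C M x0 y0 z0 = some t) : t ∈ mk1 n A B C M x l := by
  induction x generalizing l with
  | zero =>
    have : x0 = 0 := by omega
    subst this
    exact mk2_mem _ _ _ _ _ _ _ _ _ _ hy hz ht
  | succ x ih =>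
    by_cases h : x0 = x + 1
    · subst h
      show t ∈ mk1 n A B C M x (mk2 n A B C M (Nat.succ x) n l)
      exact mk1_sub _ _ _ _ _ _ _ (mk2_mem _ _ _ _ _ _ _ _ _ _ hy hz ht)
    · exact ih _ (by omega)

lemma mk_sound {n A B C m a b c : ℕ}
    (h : Cond n (A + 4 ^ m * a) (B + 4 ^ m * b) (C + 4 ^ m * c)) :
    SatL a b c (mk n A B C (4 ^ m)) := by
  obtain ⟨x, y, z, w, k, h1, h2⟩ := h
  obtain ⟨t, ht, hs⟩ := alt_sound h1 h2
  obtain ⟨hx, hy, hz⟩ := coord_le h1
  exact ⟨t, mk1_mem _ _ _ _ _ _ _ _ _ _ hx hy hz ht, hs⟩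

lemma allTo_sound {f : ℕ → Bool} {n : ℕ} (h : allTo f n = true) (x : ℕ) (hx : x ≤ n) :
    f x = true := by
  induction n with
  | zero =>
    have : x = 0 := by omega
    subst this
    exact h
  | succ n ih =>
    simp only [allTo, forceN_eq] at h
    cases hf : f (Nat.succ n) with
    | false => rw [hf] at h; simp at h
    | true =>
      rw [hf] at h
      by_cases hxn : x = n + 1
      · subst hxn; exact hf
      · exact ih h (by omega)

lemma dead_sound {n A B C : ℕ} (h : dead n A B C = true) : ¬ Cond n A B C := by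
  rintro ⟨x, y, z, w, k, h1, h2⟩
  obtain ⟨hx, hy, hz⟩ := coord_le h1
  have h3 := allTo_sound (allTo_sound (allTo_sound h x hx) y hy) z hz
  have e1 : Nat.add (Nat.add (Nat.mul A x) (Nat.mul B y)) (Nat.mul C z) = A * x + B * y + C * z :=
    rfl
  simp only [e1, h2, isP_pow, rep_sound h1] at h3
  simp at h3

lemma deadAny_sound {A B C : ℕ} (h : deadAny A B C = true) (hc : ∀ n, 1 ≤ n → Cond n A B C) :
    False := by
  unfold deadAny at h
  rw [List.any_eq_true] at h
  obtain ⟨n, hn, hd⟩ := h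
  rcases Nat.eq_zero_or_pos n with h0 | h0
  · have key : ∀ l : List ((ℕ × ℕ × ℕ) × List ℕ), (∀ e ∈ l, 0 ∉ e.2) → 0 ∉ lookup A B C l := by
      intro l hl
      induction l with
      | nil => simp [lookup]
      | cons e l ih =>
        simp only [lookup]
        cases Nat.beq e.1.1 A && (Nat.beq e.1.2.1 B && Nat.beq e.1.2.2 C) with
        | true => exact hl e List.mem_cons_self
        | false => exact ih fun e he => hl e (List.mem_cons_of_mem _ he)
    rw [h0] at hn
    refine key killers ?_ hn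
    decide
  · exact dead_sound hd (hc n h0)

lemma addHints_sound {A B C m a b c : ℕ}
    (h : ∀ n, 1 ≤ n → Cond n (A + 4 ^ m * a) (B + 4 ^ m * b) (C + 4 ^ m * c)) (l : List ℕ)
    (hl : 0 ∉ l) : SatS a b c (addHints A B C (4 ^ m) l) := by
  induction l with
  | nil => intro l hl; simp [addHints] at hl
  | cons n l ih =>
    rw [List.mem_cons, not_or] at hl
    intro l' hl'
    simp only [addHints, List.mem_cons] at hl'
    rcases hl' with rfl | hl'
    · exact mk_sound (h n (by omega))
    · exact ih hl.2 l' hl'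

lemma lookup_hints (A B C : ℕ) : 0 ∉ lookup A B C hints := by
  have key : ∀ l : List ((ℕ × ℕ × ℕ) × List ℕ), (∀ e ∈ l, 0 ∉ e.2) → 0 ∉ lookup A B C l := by
    intro l hl
    induction l with
    | nil => simp [lookup]
    | cons e l ih =>
      simp only [lookup]
      cases Nat.beq e.1.1 A && (Nat.beq e.1.2.1 B && Nat.beq e.1.2.2 C) with
      | true => exact hl e List.mem_cons_self
      | false => exact ih fun e he => hl e (List.mem_cons_of_mem _ he)
  exact key hints (by decide)

lemma hasNil_sound {a b c : ℕ} {s : List (List Alt)} (h : SatS a b c s) : hasNil s = false := by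
  induction s with
  | nil => rfl
  | cons l s ih =>
    cases l with
    | nil =>
      obtain ⟨t, ht, _⟩ := h [] List.mem_cons_self
      simp at ht
    | cons u l => exact ih fun l' hl' => h l' (List.mem_cons_of_mem _ hl')

/-- what an explicit node gives -/
def Goal (A B C m : ℕ) (s : St) : Prop := ∀ a b c : ℕ, ¬(a = 0 ∧ b = 0 ∧ c = 0) →
  (s.fa = true ∨ 0 < a) → (s.fb = true ∨ 0 < b) → (s.fc = true ∨ 0 < c) →
  (∀ n, 1 ≤ n → Cond n (A + 4 ^ m * a) (B + 4 ^ m * b) (C + 4 ^ m * c)) → SatS a b c s.ls →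
  A + 4 ^ m * a = 1 ∧ B + 4 ^ m * b = 2 ∧ C + 4 ^ m * c = 3

lemma part (A m a : ℕ) : A + 4 ^ m * a = (A + 4 ^ m * (a % 4)) + 4 ^ (m + 1) * (a / 4) := by
  have h := split4 a
  calc A + 4 ^ m * a = A + 4 ^ m * (4 * (a / 4) + a % 4) := by rw [h]
    _ = _ := by rw [pow_succ]; ring

theorem body_sound (next : ℕ → ℕ → ℕ → ℕ → St → Bool) (root : Bool) (A B C m : ℕ) (s : St)
    (hnext : ∀ A' B' C' s', next A' B' C' (4 ^ (m + 1)) s' = true → Goal A' B' C' (m + 1) s')
    (a b c : ℕ) (h : body next root A B C (4 ^ m) s (a % 4) (b % 4) (c % 4) = true)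
    (hroot : root = true → ¬(a % 4 = 0 ∧ b % 4 = 0 ∧ c % 4 = 0))
    (hne : ¬(a = 0 ∧ b = 0 ∧ c = 0))
    (hfa : s.fa = true ∨ 0 < a) (hfb : s.fb = true ∨ 0 < b) (hfc : s.fc = true ∨ 0 < c)
    (hcond : ∀ n, 1 ≤ n → Cond n (A + 4 ^ m * a) (B + 4 ^ m * b) (C + 4 ^ m * c))
    (hsat : SatS a b c s.ls) :
    A + 4 ^ m * a = 1 ∧ B + 4 ^ m * b = 2 ∧ C + 4 ^ m * c = 3 := by
  unfold body at h
  have hr : (root && isZ (a % 4) (b % 4) (c % 4)) = false := by
    cases root with
    | false => rfl
    | true =>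
      cases hz : isZ (a % 4) (b % 4) (c % 4) with
      | false => rfl
      | true => exact absurd ((isZ_iff _ _ _).1 hz) (hroot rfl)
  rw [hr] at h
  simp only at h
  have hsat' : SatS (4 * (a / 4) + a % 4) (4 * (b / 4) + b % 4) (4 * (c / 4) + c % 4) s.ls := by
    rw [split4, split4, split4]; exact hsat
  obtain ⟨ls, hls, hsat''⟩ := stepS_sound s.ls (a % 4) (b % 4) (c % 4) _ _ _ hsat'
  rw [hls] at h
  simp only [forceN_eq, forceB_eq, forceS_eq] at h
  obtain ⟨A', hA'⟩ : ∃ A', A' = A + 4 ^ m * (a % 4) := ⟨_, rfl⟩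
  obtain ⟨B', hB'⟩ : ∃ B', B' = B + 4 ^ m * (b % 4) := ⟨_, rfl⟩
  obtain ⟨C', hC'⟩ : ∃ C', C' = C + 4 ^ m * (c % 4) := ⟨_, rfl⟩
  have eA : Nat.add A (Nat.mul (4 ^ m) (a % 4)) = A' := by rw [hA']; rfl
  have eB : Nat.add B (Nat.mul (4 ^ m) (b % 4)) = B' := by rw [hB']; rfl
  have eC : Nat.add C (Nat.mul (4 ^ m) (c % 4)) = C' := by rw [hC']; rfl
  have eM : Nat.mul (4 ^ m) 4 = 4 ^ (m + 1) := by
    show 4 ^ m * 4 = 4 ^ (m + 1)
    rw [pow_succ]
  rw [eA, eB, eC, eM] at h
  have pA : A + 4 ^ m * a = A' + 4 ^ (m + 1) * (a / 4) := by rw [hA']; exact part A m a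
  have pB : B + 4 ^ m * b = B' + 4 ^ (m + 1) * (b / 4) := by rw [hB']; exact part B m b
  have pC : C + 4 ^ m * c = C' + 4 ^ (m + 1) * (c / 4) := by rw [hC']; exact part C m c
  rw [pA, pB, pC] at hcond ⊢
  obtain ⟨t, ht⟩ : ∃ t : St, t = ⟨s.fa || nz (a % 4), s.fb || nz (b % 4),
    s.fc || nz (c % 4), ls⟩ := ⟨_, rfl⟩
  rw [← ht] at h
  have gfa := flag_next hfa
  have gfb := flag_next hfb
  have gfc := flag_next hfc
  have tfa : t.fa = (s.fa || nz (a % 4)) := by rw [ht]
  have tfb : t.fb = (s.fb || nz (b % 4)) := by rw [ht]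
  have tfc : t.fc = (s.fc || nz (c % 4)) := by rw [ht]
  have tls : t.ls = ls := by rw [ht]
  by_cases hz : a / 4 = 0 ∧ b / 4 = 0 ∧ c / 4 = 0
  · obtain ⟨z1, z2, z3⟩ := hz
    rw [z1] at gfa hsat'' hcond ⊢
    rw [z2] at gfb hsat'' hcond ⊢
    rw [z3] at gfc hsat'' hcond ⊢
    rw [← tfa] at gfa
    rw [← tfb] at gfb
    rw [← tfc] at gfc
    rw [← tls] at hsat''
    simp only [lt_self_iff_false, or_false] at gfa gfb gfc
    simp only [mul_zero, add_zero] at hcond ⊢
    have hacc := acc_sound gfa gfb gfc hsat''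
    have hzz : isZ (a % 4) (b % 4) (c % 4) = false := by
      cases hh : isZ (a % 4) (b % 4) (c % 4) with
      | false => rfl
      | true =>
        rw [isZ_iff] at hh
        exact absurd ⟨by omega, by omega, by omega⟩ hne
    cases hd : deadAny A' B' C' with
    | true => exact absurd (deadAny_sound hd hcond) id
    | false =>
      rw [hacc, hzz, hd] at h
      cases h3 : (Nat.beq A' 1 && (Nat.beq B' 2 && Nat.beq C' 3)) with
      | true =>
        simp only [Bool.and_eq_true] at h3
        exact ⟨Nat.eq_of_beq_eq_true h3.1, Nat.eq_of_beq_eq_true h3.2.1,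
          Nat.eq_of_beq_eq_true h3.2.2⟩
      | false =>
        rw [h3] at h
        simp at h
  · split at h
    · simp at h
    · obtain ⟨extra, hextra⟩ : ∃ e, e = extras A' B' C' (4 ^ (m + 1)) := ⟨_, rfl⟩
      rw [← hextra] at h
      have hes : SatS (a / 4) (b / 4) (c / 4) extra := by
        rw [hextra]
        unfold extras
        cases Nat.beq (4 ^ (m + 1)) 64 with
        | true => exact addHints_sound hcond _ (lookup_hints _ _ _)
        | false => intro l hl; simp at hl
      rw [hasNil_sound hes] at h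
      simp only at h
      have hall : SatS (a / 4) (b / 4) (c / 4) (ls ++ extra) := by
        intro l hl
        rw [List.mem_append] at hl
        rcases hl with hl | hl
        · exact hsat'' l hl
        · exact hes l hl
      split at h
      · rename_i hnc
        exact absurd (nc_top hnc (a / 4 + b / 4 + c / 4) _ _ _ le_rfl hz gfa gfb gfc hall) id
      · exact hnext _ _ _ _ h _ _ _ hz gfa gfb gfc hcond hall

theorem ex_sound (fuel : ℕ) : ∀ (A B C m : ℕ) (s : St), ex fuel A B C (4 ^ m) s = true →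
    Goal A B C m s := by
  induction fuel with
  | zero => intro A B C m s h; simp [ex] at h
  | succ fuel ih =>
    intro A B C m s h a b c hne hfa hfb hfc hcond hsat
    simp only [ex] at h
    have h1 := all4_sound (all4_sound (all4_sound h (a % 4) (by omega)) (b % 4) (by omega))
      (c % 4) (by omega)
    exact body_sound (ex fuel) false A B C m s (fun A' B' C' s' h' => ih _ _ _ _ _ h') a b c h1
      (by simp) hne hfa hfb hfc hcond hsat

theorem start_sound (l : Alt) (h : ∀ a b c : ℕ, a < 4 → b < 4 → c < 4 → start l a b c = true)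
    (a b c : ℕ) (ha : 0 < a) (hb : 0 < b) (hc : 0 < c)
    (h4 : ¬(a % 4 = 0 ∧ b % 4 = 0 ∧ c % 4 = 0)) (hcond : ∀ n, 1 ≤ n → Cond n a b c)
    (hpow : ∃ k : ℕ, a = 4 ^ k) (hl : l.Sat a b c) : a = 1 ∧ b = 2 ∧ c = 3 := by
  have h1 := h (a % 4) (b % 4) (c % 4) (by omega) (by omega) (by omega)
  unfold start at h1
  rw [forceS_eq] at h1
  have h2 := body_sound (ex 4) true 0 0 0 0
    ⟨false, false, false, [[.pend 1 0 0 0], [l], mk 3 0 0 0 1, mk 6 0 0 0 1, mk 7 0 0 0 1]⟩
    (fun A' B' C' s' h' => ex_sound 4 A' B' C' (0 + 1) s' h') a b c h1 (fun _ => h4)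
    (by omega) (Or.inr ha) (Or.inr hb) (Or.inr hc) (by simpa using hcond) (by
      intro l' hl'
      have key : ∀ n, 1 ≤ n → SatL a b c (mk n 0 0 0 1) := by
        intro n hn
        have := mk_sound (n := n) (A := 0) (B := 0) (C := 0) (m := 0) (a := a) (b := b) (c := c)
          (by simpa using hcond n hn)
        rwa [pow_zero] at this
      simp only [List.mem_cons, List.not_mem_nil, or_false] at hl'
      rcases hl' with rfl | rfl | rfl | rfl | rfl
      · obtain ⟨k, hk⟩ := hpow
        exact ⟨_, List.mem_singleton.2 rfl, k, by rw [← hk]; ring⟩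
      · exact ⟨l, List.mem_singleton.2 rfl, hl⟩
      · exact key 3 (by norm_num)
      · exact key 6 (by norm_num)
      · exact key 7 (by norm_num))
  simpa using h2

end Pool.Agent.Q252.P4
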