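import Pool.Agent.Q252.P4.RunA

/-!
# The main theorem
-/

set_option autoImplicit false

namespace Pool.Agent.Q252.P4

lemma Cond.swap {n a b c : ℕ} (h : Cond n a b c) : Cond n b a c := by
  obtain ⟨x, y, z, w, k, h1, h2⟩ := h
  exact ⟨y, x, z, w, k, by omega, by rw [← h2]; ring⟩

lemma Cond.rot {n a b c : ℕ} (h : Cond n a b c) : Cond n a c b := by
  obtain ⟨x, y, z, w, k, h1, h2⟩ := h
  exact ⟨x, z, y, w, k, by omega, by rw [← h2]; ring⟩

lemma two_mul_pow (i k : ℕ) : 2 * 4 ^ i ≠ 4 ^ k := by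
  intro h
  have h1 : (2 : ℕ) ^ (2 * i + 1) = 2 ^ (2 * k) := by
    rw [pow_succ, pow_mul, pow_mul]
    norm_num
    rw [mul_comm]
    exact h
  have := Nat.pow_right_injective (le_refl 2) h1
  omega

lemma cond_one {a b c : ℕ} (h : Cond 1 a b c) :
    (∃ k, a = 4 ^ k) ∨ (∃ k, b = 4 ^ k) ∨ (∃ k, c = 4 ^ k) := by
  obtain ⟨x, y, z, w, k, h1, h2⟩ := h
  obtain ⟨hx, hy, hz⟩ := coord_le h1
  have hk : 0 < 4 ^ k := by positivity
  interval_cases x <;> interval_cases y <;> interval_cases z <;>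
    simp only [mul_zero, mul_one, zero_add, add_zero] at h2 <;>
    first
    | omega
    | exact Or.inl ⟨k, h2⟩
    | exact Or.inr (Or.inl ⟨k, h2⟩)
    | exact Or.inr (Or.inr ⟨k, h2⟩)

lemma cond_two {a b c : ℕ} (h : Cond 2 a b c) :
    (∃ k, 2 * a = 4 ^ k) ∨ (∃ k, 2 * b = 4 ^ k) ∨ (∃ k, 2 * c = 4 ^ k) ∨
      (∃ k, a + b + c = 4 ^ k) := by
  obtain ⟨x, y, z, w, k, h1, h2⟩ := h
  obtain ⟨hx, hy, hz⟩ := coord_le h1
  have hw : w ≤ 2 := by
    by_contra hc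
    push Not at hc
    have := Nat.pow_lt_pow_left hc (n := 2) (by norm_num)
    omega
  have hk : 0 < 4 ^ k := by positivity
  interval_cases x <;> interval_cases y <;> interval_cases z <;> interval_cases w <;>
    first
    | (exfalso; norm_num at h1; done)
    | (exfalso; omega)
    | exact Or.inl ⟨k, by omega⟩
    | exact Or.inr (Or.inl ⟨k, by omega⟩)
    | exact Or.inr (Or.inr (Or.inl ⟨k, by omega⟩))
    | exact Or.inr (Or.inr (Or.inr ⟨k, by omega⟩))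

theorem main (a b c : ℕ) (ha : 0 < a) (hb : 0 < b) (hc : 0 < c)
    (h4 : ¬(a % 4 = 0 ∧ b % 4 = 0 ∧ c % 4 = 0)) (hcond : ∀ n, 1 ≤ n → Cond n a b c)
    (hpow : ∃ k : ℕ, a = 4 ^ k) : (a = 1 ∧ b = 2 ∧ c = 3) ∨ (a = 1 ∧ b = 3 ∧ c = 2) := by
  rcases cond_two (hcond 2 (by norm_num)) with ⟨k, hk⟩ | ⟨k, hk⟩ | ⟨k, hk⟩ | ⟨k, hk⟩
  · obtain ⟨i, hi⟩ := hpow
    rw [hi] at hk
    exact absurd hk (two_mul_pow i k)
  · left
    exact start_sound (.pend 0 2 0 0) (fun a b c => allA a b c) a b c ha hb hc h4 hcond hpow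
      ⟨k, by rw [← hk]; ring⟩
  · right
    have := start_sound (.pend 0 2 0 0) (fun a b c => allA a b c) a c b ha hc hb
      (by omega) (fun n hn => (hcond n hn).rot) hpow ⟨k, by rw [← hk]; ring⟩
    omega
  · left
    exact start_sound (.pend 1 1 1 0) (fun a b c => allB a b c) a b c ha hb hc h4 hcond hpow
      ⟨k, by rw [← hk]; ring⟩

end Pool.Agent.Q252.P4
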