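import Pool.Agent.Q252.P4.RunB

/-!
# Evaluation, second case
-/

set_option autoImplicit false
set_option maxRecDepth 100000

namespace Pool.Agent.Q252.P4

theorem runA000 : start (.pend 0 2 0 0) 0 0 0 = true := by decide +kernel

theorem runA001 : start (.pend 0 2 0 0) 0 0 1 = true := by decide +kernel

theorem runA002 : start (.pend 0 2 0 0) 0 0 2 = true := by decide +kernel

theorem runA003 : start (.pend 0 2 0 0) 0 0 3 = true := by decide +kernel

theorem runA020 : start (.pend 0 2 0 0) 0 2 0 = true := by decide +kernel

theorem runA021 : start (.pend 0 2 0 0) 0 2 1 = true := by decide +kernel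

theorem runA022 : start (.pend 0 2 0 0) 0 2 2 = true := by decide +kernel

theorem runA023 : start (.pend 0 2 0 0) 0 2 3 = true := by decide +kernel

theorem allA (a b c : ℕ) (ha : a < 4) (hb : b < 4) (hc : c < 4) :
    start (.pend 0 2 0 0) a b c = true := by
  by_cases h : a = 0
  · subst h
    rcases (by omega : b = 0 ∨ b = 1 ∨ b = 2 ∨ b = 3) with rfl | rfl | rfl | rfl
    · rcases (by omega : c = 0 ∨ c = 1 ∨ c = 2 ∨ c = 3) with rfl | rfl | rfl | rfl
      · exact runA000
      · exact runA001
      · exact runA002
      · exact runA003
    · exact runA01 c hc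
    · rcases (by omega : c = 0 ∨ c = 1 ∨ c = 2 ∨ c = 3) with rfl | rfl | rfl | rfl
      · exact runA020
      · exact runA021
      · exact runA022
      · exact runA023
    · exact runA03 c hc
  · by_cases h1 : a = 1
    · subst h1
      exact runA1 b c hb hc
    · exact runA23 a b c (by omega) hb hc

end Pool.Agent.Q252.P4
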