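import Pool.Agent.Q252.P4.Ex

/-!
# Evaluation, first case
-/

set_option autoImplicit false
set_option maxRecDepth 100000

namespace Pool.Agent.Q252.P4

theorem runB : all4 (fun a => all4 fun b => all4 fun c => start (.pend 1 1 1 0) a b c) = true := by
  decide +kernel

theorem allB (a b c : ℕ) (ha : a < 4) (hb : b < 4) (hc : c < 4) :
    start (.pend 1 1 1 0) a b c = true :=
  all4_sound (all4_sound (all4_sound runB a ha) b hb) c hc

theorem runA1 (b c : ℕ) (hb : b < 4) (hc : c < 4) : start (.pend 0 2 0 0) 1 b c = true := by
  have h : all4 (fun b => all4 fun c => start (.pend 0 2 0 0) 1 b c) = true := by decide +kernel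
  exact all4_sound (all4_sound h b hb) c hc

theorem runA23 (a b c : ℕ) (ha : a = 2 ∨ a = 3) (hb : b < 4) (hc : c < 4) :
    start (.pend 0 2 0 0) a b c = true := by
  have h2 : all4 (fun b => all4 fun c => start (.pend 0 2 0 0) 2 b c) = true := by decide +kernel
  have h3 : all4 (fun b => all4 fun c => start (.pend 0 2 0 0) 3 b c) = true := by decide +kernel
  rcases ha with rfl | rfl
  · exact all4_sound (all4_sound h2 b hb) c hc
  · exact all4_sound (all4_sound h3 b hb) c hc

theorem runA01 (c : ℕ) (hc : c < 4) : start (.pend 0 2 0 0) 0 1 c = true := by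
  have h : all4 (fun c => start (.pend 0 2 0 0) 0 1 c) = true := by decide +kernel
  exact all4_sound h c hc

theorem runA03 (c : ℕ) (hc : c < 4) : start (.pend 0 2 0 0) 0 3 c = true := by
  have h : all4 (fun c => start (.pend 0 2 0 0) 0 3 c) = true := by decide +kernel
  exact all4_sound h c hc

end Pool.Agent.Q252.P4
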