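import Pool.Agent.Q252.P4.Aut

/-!
# Soundness of the automaton
-/

set_option autoImplicit false

namespace Pool.Agent.Q252.P4

lemma beqf {a b : ℕ} (h : a ≠ b) : Nat.beq a b = false :=
  Bool.eq_false_iff.2 fun h' => h (Nat.eq_of_beq_eq_true h')

lemma forceN_eq {α : Type} (n : ℕ) (f : ℕ → α) : forceN n f = f n := by
  cases n <;> rfl

lemma forceB_eq {α : Type} (n : Bool) (f : Bool → α) : forceB n f = f n := by
  cases n <;> rfl

lemma forceA_eq {α : Type} (t : Alt) (f : Alt → α) : forceA t f = f t := by
  cases t <;> simp [forceA, forceN_eq]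

lemma forceL_eq {α : Type} (l : List Alt) (f : List Alt → α) : forceL l f = f l := by
  induction l generalizing f with
  | nil => rfl
  | cons a l ih => simp [forceL, forceA_eq, ih]

lemma forceS_eq {α : Type} (l : List (List Alt)) (f : List (List Alt) → α) :
    forceS l f = f l := by
  induction l generalizing f with
  | nil => rfl
  | cons a l ih => simp [forceS, forceL_eq, ih]

/-- truth of an alternative for the remaining parts `a, b, c` -/
def Alt.Sat (a b c : ℕ) : Alt → Prop
  | .pend x y z r => ∃ k : ℕ, x * a + y * b + z * c + r = 4 ^ k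
  | .done x y z => x * a + y * b + z * c = 0

def SatL (a b c : ℕ) (l : List Alt) : Prop := ∃ t ∈ l, t.Sat a b c

def SatS (a b c : ℕ) (s : List (List Alt)) : Prop := ∀ l ∈ s, SatL a b c l

lemma stepA_sound (t : Alt) (da db dc a b c : ℕ)
    (h : t.Sat (4 * a + da) (4 * b + db) (4 * c + dc)) :
    ∃ t', stepA da db dc t = some t' ∧ t'.Sat a b c := by
  cases t with
  | pend x y z r =>
    obtain ⟨k, hk⟩ := h
    simp only [stepA, forceN_eq]
    have hv : Nat.add (Nat.add (Nat.add (Nat.mul x da) (Nat.mul y db)) (Nat.mul z dc)) r =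
        x * da + y * db + z * dc + r := rfl
    rw [hv]
    obtain ⟨v, hv'⟩ : ∃ v, v = x * da + y * db + z * dc + r := ⟨_, rfl⟩
    rw [← hv']
    have e : 4 * (x * a + y * b + z * c) + v = 4 ^ k := by
      rw [hv', ← hk]; ring
    cases k with
    | zero =>
      rw [pow_zero] at e
      have h1 : v = 1 := by omega
      have h2 : x * a + y * b + z * c = 0 := by omega
      refine ⟨.done x y z, ?_, h2⟩
      rw [h1]
    | succ k =>
      rw [pow_succ] at e
      have h1 : Nat.mod v 4 = 0 := by
        show v % 4 = 0
        omega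
      refine ⟨.pend x y z (v / 4), ?_, k, ?_⟩
      · have : Nat.beq (Nat.mod v 4) 0 = true := by rw [h1]; rfl
        rw [this]
        rfl
      · show x * a + y * b + z * c + v / 4 = 4 ^ k
        omega
  | done x y z =>
    have h' : x * (4 * a + da) + y * (4 * b + db) + z * (4 * c + dc) = 0 := h
    have e : x * (4 * a + da) + y * (4 * b + db) + z * (4 * c + dc) =
      4 * (x * a + y * b + z * c) + (x * da + y * db + z * dc) := by ring
    rw [e] at h'
    have h1 : x * da + y * db + z * dc = 0 := by omega
    have h2 : x * a + y * b + z * c = 0 := by omega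
    refine ⟨.done x y z, ?_, h2⟩
    have hv : Nat.add (Nat.add (Nat.mul x da) (Nat.mul y db)) (Nat.mul z dc) =
        x * da + y * db + z * dc := rfl
    simp only [stepA]
    rw [hv, h1]

lemma stepL_sound (l : List Alt) (da db dc a b c : ℕ)
    (h : SatL (4 * a + da) (4 * b + db) (4 * c + dc) l) : SatL a b c (stepL da db dc l) := by
  obtain ⟨t, ht, hs⟩ := h
  obtain ⟨t', ht', hs'⟩ := stepA_sound t da db dc a b c hs
  refine ⟨t', ?_, hs'⟩
  clear hs hs'
  induction l with
  | nil => simp at ht
  | cons u l ih =>
    rw [List.mem_cons] at ht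
    rcases ht with rfl | ht
    · simp [stepL, ht']
    · have := ih ht
      simp only [stepL]
      cases stepA da db dc u with
      | none => exact this
      | some u' => exact List.mem_cons_of_mem _ this

lemma stepS_sound (s : List (List Alt)) (da db dc a b c : ℕ)
    (h : SatS (4 * a + da) (4 * b + db) (4 * c + dc) s) :
    ∃ s', stepS da db dc s = some s' ∧ SatS a b c s' := by
  induction s with
  | nil => exact ⟨[], rfl, fun l hl => by simp at hl⟩
  | cons l s ih =>
    obtain ⟨s', hs', hss⟩ := ih fun l' hl' => h l' (List.mem_cons_of_mem _ hl')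
    have h1 := stepL_sound l da db dc a b c (h l List.mem_cons_self)
    simp only [stepS]
    cases hl : stepL da db dc l with
    | nil =>
      rw [hl] at h1
      obtain ⟨t, ht, _⟩ := h1
      simp at ht
    | cons u l' =>
      rw [hs']
      refine ⟨(u :: l') :: s', rfl, fun m hm => ?_⟩
      rw [List.mem_cons] at hm
      rcases hm with rfl | hm
      · rw [← hl]; exact h1
      · exact hss m hm

lemma isPf_pow (k f : ℕ) (hf : k < f) : isPf f (4 ^ k) = true := by
  induction k generalizing f with
  | zero =>
    obtain ⟨f, rfl⟩ : ∃ g, f = g + 1 := ⟨f - 1, by omega⟩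
    rfl
  | succ k ih =>
    obtain ⟨f, rfl⟩ : ∃ g, f = g + 1 := ⟨f - 1, by omega⟩
    simp only [isPf, forceN_eq]
    have h1 : 4 ^ (k + 1) = 4 * 4 ^ k := by rw [pow_succ]; ring
    have h4 : 0 < 4 ^ k := by positivity
    have h2 : Nat.mod (4 ^ (k + 1)) 4 = 0 := by
      show 4 ^ (k + 1) % 4 = 0
      omega
    have h3 : Nat.div (4 ^ (k + 1)) 4 = 4 ^ k := by
      show 4 ^ (k + 1) / 4 = 4 ^ k
      omega
    have h5 : Nat.beq (4 ^ (k + 1)) 0 = false := beqf (by omega)
    rw [h2, h3, h5, ih f (by omega)]
    cases Nat.beq (4 ^ (k + 1)) 1 <;> rfl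

lemma isP_pow (k : ℕ) : isP (4 ^ k) = true := by
  unfold isP
  rw [forceN_eq]
  exact isPf_pow k _ (Nat.lt_pow_self (by norm_num))

lemma accS_sound (s : List (List Alt)) (h : SatS 0 0 0 s) : accS s = true := by
  induction s with
  | nil => rfl
  | cons l s ih =>
    have h1 : accL l = true := by
      obtain ⟨t, ht, hs⟩ := h l List.mem_cons_self
      clear h ih
      induction l with
      | nil => simp at ht
      | cons u l ih =>
        rw [List.mem_cons] at ht
        rcases ht with rfl | ht
        · have : accA t = true := by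
            cases t with
            | pend x y z r =>
              obtain ⟨k, hk⟩ := hs
              have : r = 4 ^ k := by rw [← hk]; ring
              simp only [accA]
              rw [this]
              exact isP_pow k
            | done x y z => rfl
          simp [accL, this]
        · have := ih ht
          simp only [accL]
          rw [this]
          cases accA u <;> rfl
    have h2 := ih fun l' hl' => h l' (List.mem_cons_of_mem _ hl')
    simp [accS, h1, h2]

lemma beqB_eq {a b : Bool} (h : beqB a b = true) : a = b := by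
  cases a <;> cases b <;> simp_all [beqB]

lemma Alt.beq_eq {a b : Alt} (h : Alt.beq a b = true) : a = b := by
  cases a <;> cases b <;> simp only [Alt.beq, Bool.and_eq_true, Bool.false_eq_true] at h
  · obtain ⟨h1, h2, h3, h4⟩ := h
    rw [Nat.eq_of_beq_eq_true h1, Nat.eq_of_beq_eq_true h2, Nat.eq_of_beq_eq_true h3,
      Nat.eq_of_beq_eq_true h4]
  · obtain ⟨h1, h2, h3⟩ := h
    rw [Nat.eq_of_beq_eq_true h1, Nat.eq_of_beq_eq_true h2, Nat.eq_of_beq_eq_true h3]

lemma listBeq_eq {a b : List Alt} (h : listBeq a b = true) : a = b := by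
  induction a generalizing b with
  | nil => cases b <;> simp_all [listBeq]
  | cons x a ih =>
    cases b with
    | nil => simp [listBeq] at h
    | cons y b =>
      simp only [listBeq] at h
      cases hxy : Alt.beq x y with
      | false => rw [hxy] at h; simp at h
      | true =>
        rw [hxy] at h
        rw [Alt.beq_eq hxy, ih h]

lemma llBeq_eq {a b : List (List Alt)} (h : llBeq a b = true) : a = b := by
  induction a generalizing b with
  | nil => cases b <;> simp_all [llBeq]
  | cons x a ih =>
    cases b with
    | nil => simp [llBeq] at h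
    | cons y b =>
      simp only [llBeq] at h
      cases hxy : listBeq x y with
      | false => rw [hxy] at h; simp at h
      | true =>
        rw [hxy] at h
        rw [listBeq_eq hxy, ih h]

lemma St.beq_eq {s t : St} (h : St.beq s t = true) : s = t := by
  unfold St.beq at h
  cases hb : beqB s.fa t.fa && (beqB s.fb t.fb && beqB s.fc t.fc) with
  | false => rw [hb] at h; simp at h
  | true =>
    rw [hb] at h
    simp only [Bool.and_eq_true] at hb
    obtain ⟨h1, h2, h3⟩ := hb
    cases s; cases t
    simp only [St.mk.injEq]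
    exact ⟨beqB_eq h1, beqB_eq h2, beqB_eq h3, llBeq_eq h⟩

lemma mem_sound {s : St} {p : List St} (h : mem s p = true) : s ∈ p := by
  induction p with
  | nil => simp [mem] at h
  | cons t p ih =>
    simp only [mem] at h
    cases hst : St.beq s t with
    | true => rw [St.beq_eq hst]; exact List.mem_cons_self
    | false =>
      rw [hst] at h
      exact List.mem_cons_of_mem _ (ih h)

lemma all4_sound {f : ℕ → Bool} (h : all4 f = true) (d : ℕ) (hd : d < 4) : f d = true := by
  unfold all4 at h
  cases h0 : f 0 with
  | false => rw [h0] at h; simp at h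
  | true =>
    rw [h0] at h
    simp only at h
    cases h1 : f 1 with
    | false => rw [h1] at h; simp at h
    | true =>
      rw [h1] at h
      simp only at h
      cases h2 : f 2 with
      | false => rw [h2] at h; simp at h
      | true =>
        rw [h2] at h
        simp only at h
        interval_cases d
        · exact h0
        · exact h1
        · exact h2
        · exact h

/-- there is no completion with sum at most `N` -/
def Claim (N : ℕ) (s : St) : Prop := ∀ a b c : ℕ, a + b + c ≤ N → ¬(a = 0 ∧ b = 0 ∧ c = 0) →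
  (s.fa = true ∨ 0 < a) → (s.fb = true ∨ 0 < b) → (s.fc = true ∨ 0 < c) → SatS a b c s.ls → False

lemma Claim.mono {N M : ℕ} {s : St} (h : Claim N s) (hMN : M ≤ N) : Claim M s :=
  fun a b c h1 => h a b c (h1.trans hMN)

lemma flag_next {f : Bool} {a : ℕ} (h : f = true ∨ 0 < a) :
    (f || nz (a % 4)) = true ∨ 0 < a / 4 := by
  rcases h with h | h
  · left; simp [h]
  · by_cases h0 : a % 4 = 0
    · right; omega
    · left
      have : nz (a % 4) = true := by
        unfold nz
        rw [beqf h0]
        rfl
      simp [this]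

lemma isZ_iff (a b c : ℕ) : isZ a b c = true ↔ a = 0 ∧ b = 0 ∧ c = 0 := by
  simp [isZ, Nat.beq_eq]

lemma acc_sound {s : St} (ha : s.fa = true) (hb : s.fb = true) (hc : s.fc = true)
    (h : SatS 0 0 0 s.ls) : acc s = true := by
  simp [acc, ha, hb, hc, accS_sound _ h]

lemma split4 (a : ℕ) : 4 * (a / 4) + a % 4 = a := by omega

theorem nc_sound (fuel : ℕ) : ∀ (path : List St) (s : St), s ∈ path → nc fuel path s = true →
    ∀ N, (∀ p ∈ path, Claim N p) → Claim (N + 1) s := by
  induction fuel with
  | zero => intro path s _ h; simp [nc] at h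
  | succ fuel ih =>
    intro path s hs h N hp a b c hsum hne hfa hfb hfc hsat
    simp only [nc, forceB_eq] at h
    have h1 := all4_sound (all4_sound (all4_sound h (a % 4) (by omega)) (b % 4) (by omega))
      (c % 4) (by omega)
    have hsat' : SatS (4 * (a / 4) + a % 4) (4 * (b / 4) + b % 4) (4 * (c / 4) + c % 4) s.ls := by
      rw [split4, split4, split4]; exact hsat
    obtain ⟨ls, hls, hsat''⟩ := stepS_sound s.ls (a % 4) (b % 4) (c % 4) _ _ _ hsat'
    rw [hls] at h1
    simp only at h1
    obtain ⟨t, ht⟩ : ∃ t : St, t = ⟨s.fa || nz (a % 4), s.fb || nz (b % 4),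
      s.fc || nz (c % 4), ls⟩ := ⟨_, rfl⟩
    rw [← ht] at h1
    have gfa := flag_next hfa
    have gfb := flag_next hfb
    have gfc := flag_next hfc
    have tfa : t.fa = (s.fa || nz (a % 4)) := by rw [ht]
    have tfb : t.fb = (s.fb || nz (b % 4)) := by rw [ht]
    have tfc : t.fc = (s.fc || nz (c % 4)) := by rw [ht]
    have tls : t.ls = ls := by rw [ht]
    rw [← tfa] at gfa
    rw [← tfb] at gfb
    rw [← tfc] at gfc
    rw [← tls] at hsat''
    by_cases hz : a / 4 = 0 ∧ b / 4 = 0 ∧ c / 4 = 0
    · obtain ⟨z1, z2, z3⟩ := hz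
      rw [z1] at gfa hsat''
      rw [z2] at gfb hsat''
      rw [z3] at gfc hsat''
      simp only [lt_self_iff_false, or_false] at gfa gfb gfc
      have hacc := acc_sound gfa gfb gfc hsat''
      have hzz : isZ (a % 4) (b % 4) (c % 4) = false := by
        cases hh : isZ (a % 4) (b % 4) (c % 4) with
        | false => rfl
        | true =>
          rw [isZ_iff] at hh
          exact absurd ⟨by omega, by omega, by omega⟩ hne
      rw [hacc, hzz] at h1
      simp at h1
    · have hsum' : a / 4 + b / 4 + c / 4 ≤ N := by omega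
      have hclaim : Claim N t := by
        cases hb : !(isZ (a % 4) (b % 4) (c % 4)) && acc t with
        | true => rw [hb] at h1; simp at h1
        | false =>
          rw [hb] at h1
          simp only at h1
          cases hm : mem t path with
          | true => exact hp t (mem_sound hm)
          | false =>
            rw [hm] at h1
            simp only at h1
            have key : ∀ M, M ≤ N → Claim M t := by
              intro M
              induction M with
              | zero =>
                intro _ a b c h1 h2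
                exact absurd ⟨by omega, by omega, by omega⟩ h2
              | succ M ihM =>
                intro hM
                refine ih (t :: path) t List.mem_cons_self h1 M fun p hp' => ?_
                rw [List.mem_cons] at hp'
                rcases hp' with rfl | hp'
                · exact ihM (by omega)
                · exact (hp p hp').mono (by omega)
            exact key N le_rfl
      exact hclaim _ _ _ hsum' hz gfa gfb gfc hsat''

theorem nc_top {fuel : ℕ} {s : St} (h : nc fuel [s] s = true) (N : ℕ) : Claim N s := by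
  induction N with
  | zero =>
    intro a b c h1 h2
    exact absurd ⟨by omega, by omega, by omega⟩ h2
  | succ N ih =>
    refine nc_sound fuel [s] s List.mem_cons_self h N fun p hp => ?_
    rw [List.mem_singleton] at hp
    rw [hp]
    exact ih

/-- The condition for one `n`. -/
def Cond (n a b c : ℕ) : Prop := ∃ x y z w k : ℕ, n ^ 2 = x ^ 2 + y ^ 2 + z ^ 2 + w ^ 2 ∧
  a * x + b * y + c * z = 4 ^ k

lemma isSqTo_sound (w r m : ℕ) (hw : w ≤ m) (h : w * w = r) : isSqTo r m = true := by
  induction m with
  | zero =>
    have : w = 0 := by omega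
    rw [← h, this]
    rfl
  | succ m ih =>
    simp only [isSqTo]
    by_cases hwm : w = m + 1
    · have : Nat.beq (Nat.mul (Nat.succ m) (Nat.succ m)) r = true := by
        rw [← h, hwm]
        exact Nat.beq_refl _
      rw [this]
    · rw [ih (by omega)]
      cases Nat.beq (Nat.mul (Nat.succ m) (Nat.succ m)) r <;> rfl

lemma rep_sound {n x y z w : ℕ} (h : n ^ 2 = x ^ 2 + y ^ 2 + z ^ 2 + w ^ 2) :
    rep n x y z = true := by
  unfold rep
  rw [forceN_eq]
  have e1 : Nat.add (Nat.add (Nat.mul x x) (Nat.mul y y)) (Nat.mul z z) = x * x + y * y + z * z :=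
    rfl
  have e2 : Nat.mul n n = n * n := rfl
  rw [e1, e2]
  have h' : n * n = x * x + y * y + z * z + w * w := by
    rw [pow_two, pow_two, pow_two, pow_two, pow_two] at h
    exact h
  have h1 : Nat.ble (x * x + y * y + z * z) (n * n) = true := by
    rw [Nat.ble_eq]
    omega
  rw [h1]
  simp only
  rw [forceN_eq]
  refine isSqTo_sound w _ n ?_ ?_
  · by_contra hc
    have : n * n < w * w := Nat.mul_self_lt_mul_self (by omega)
    omega
  · show w * w = n * n - (x * x + y * y + z * z)
    omega

lemma coord_le {n x y z w : ℕ} (h : n ^ 2 = x ^ 2 + y ^ 2 + z ^ 2 + w ^ 2) :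
    x ≤ n ∧ y ≤ n ∧ z ≤ n := by
  refine ⟨?_, ?_, ?_⟩ <;>
  · by_contra hc
    push Not at hc
    have := Nat.pow_lt_pow_left hc (n := 2) (by norm_num)
    omega

lemma alt_sound {n A B C m x y z w k a b c : ℕ} (h : n ^ 2 = x ^ 2 + y ^ 2 + z ^ 2 + w ^ 2)
    (hk : (A + 4 ^ m * a) * x + (B + 4 ^ m * b) * y + (C + 4 ^ m * c) * z = 4 ^ k) :
    ∃ t, alt n A B C (4 ^ m) x y z = some t ∧ t.Sat a b c := by
  unfold alt
  rw [forceN_eq]
  have e1 : Nat.add (Nat.add (Nat.mul A x) (Nat.mul B y)) (Nat.mul C z) = A * x + B * y + C * z :=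
    rfl
  rw [e1]
  obtain ⟨v, hv⟩ : ∃ v, v = A * x + B * y + C * z := ⟨_, rfl⟩
  rw [← hv]
  have e : v + 4 ^ m * (x * a + y * b + z * c) = 4 ^ k := by
    rw [hv, ← hk]; ring
  have hxyz : nz (Nat.add (Nat.add x y) z) = true := by
    have e2 : Nat.add (Nat.add x y) z = x + y + z := rfl
    rw [e2]
    unfold nz
    have : x + y + z ≠ 0 := by
      intro h0
      have hx : x = 0 := by omega
      have hy : y = 0 := by omega
      have hz : z = 0 := by omega
      rw [hx, hy, hz] at hk
      simp only [mul_zero, add_zero] at hk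
      have : 0 < 4 ^ k := by positivity
      omega
    rw [beqf this]
    rfl
  have hr := rep_sound h
  by_cases hkm : m ≤ k
  · have h1 : 4 ^ m ∣ v := by
      have h2 : 4 ^ m ∣ v + 4 ^ m * (x * a + y * b + z * c) := by
        rw [e]; exact pow_dvd_pow 4 hkm
      exact (Nat.dvd_add_left (Dvd.intro _ rfl)).1 h2
    have h2 : Nat.mod v (4 ^ m) = 0 := Nat.mod_eq_zero_of_dvd h1
    rw [h2, hxyz, hr]
    refine ⟨.pend x y z (v / 4 ^ m), rfl, k - m, ?_⟩
    show x * a + y * b + z * c + v / 4 ^ m = 4 ^ (k - m)
    obtain ⟨q, hq⟩ := h1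
    have hpos : 0 < 4 ^ m := by positivity
    rw [hq, Nat.mul_div_cancel_left _ hpos]
    have h3 : 4 ^ k = 4 ^ m * 4 ^ (k - m) := by rw [← pow_add]; congr 1; omega
    rw [h3, hq] at e
    have h4 : 4 ^ m * (x * a + y * b + z * c + q) = 4 ^ m * 4 ^ (k - m) := by rw [← e]; ring
    exact Nat.eq_of_mul_eq_mul_left hpos h4
  · have h1 : 4 ^ k < 4 ^ m := Nat.pow_lt_pow_right (by norm_num) (by omega)
    have h2 : x * a + y * b + z * c = 0 := by
      by_contra h0
      have : 4 ^ m * 1 ≤ 4 ^ m * (x * a + y * b + z * c) :=
        Nat.mul_le_mul_left _ (by omega)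
      omega
    have h3 : v = 4 ^ k := by rw [← e, h2]; ring
    have h4 : Nat.mod v (4 ^ m) ≠ 0 := by
      show v % 4 ^ m ≠ 0
      rw [h3, Nat.mod_eq_of_lt h1]
      positivity
    have h5 : Nat.beq (Nat.mod v (4 ^ m)) 0 = false := beqf h4
    rw [h5, h3, isP_pow, hr]
    exact ⟨.done x y z, rfl, h2⟩

end Pool.Agent.Q252.P4
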